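import Pool.Agent.Helper78.KD.FDefs

/-!
# KD block F3: trapezoids and arcs
-/

set_option autoImplicit false

namespace Pool.Agent.Helper31.KD

open MeasureTheory Set Filter Topology H44TX
open Pool.Agent.Helper78.KD

/-! ### arcs -/

theorem floor_sub_eq {a : ℝ} (h0 : 0 ≤ a) (h1 : a ≤ 1) (t : ℝ) :
    (⌊t - a⌋ : ℝ) = ⌊t⌋ - 1 + if a ≤ Int.fract t then 1 else 0 := by
  have ht : (⌊t⌋ : ℝ) + Int.fract t = t := Int.floor_add_fract t
  have hf0 := Int.fract_nonneg t
  have hf1 := Int.fract_lt_one t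
  split_ifs with h
  · have : ⌊t - a⌋ = ⌊t⌋ := by
      rw [Int.floor_eq_iff]
      exact ⟨by linarith, by linarith⟩
    rw [this]
    ring
  · push Not at h
    have : ⌊t - a⌋ = ⌊t⌋ - 1 := by
      rw [Int.floor_eq_iff]
      push_cast
      exact ⟨by linarith, by linarith⟩
    rw [this]
    push_cast
    ring

theorem chi_eq {α β : ℝ} (h0 : 0 ≤ α) (h1 : α ≤ β) (h2 : β ≤ 1) (t : ℝ) :
    chi α β t = (⌊t - α⌋ : ℝ) - ⌊t - β⌋ - (β - α) := by
  unfold chi
  rw [floor_sub_eq h0 (h1.trans h2), floor_sub_eq (h0.trans h1) h2]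
  by_cases e1 : α ≤ Int.fract t
  · by_cases e2 : Int.fract t < β
    · rw [if_pos ⟨e1, e2⟩, if_pos e1, if_neg (not_le.mpr e2)]
      ring
    · rw [if_neg (fun h => e2 h.2), if_pos e1, if_pos (not_lt.mp e2)]
      ring
  · have e2 : Int.fract t < β := (not_le.mp e1).trans_le h1
    rw [if_neg (fun h => e1 h.1), if_neg e1, if_neg (not_le.mpr e2)]
    ring

theorem int_floor {α : ℝ} (h0 : 0 ≤ α) (h1 : α ≤ 1) : ∫ t in (0 : ℝ)..1, (⌊t - α⌋ : ℝ) = -α := by
  have hm : Monotone fun t : ℝ => (⌊t - α⌋ : ℝ) := by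
    intro s t hst
    show (⌊s - α⌋ : ℝ) ≤ ⌊t - α⌋
    exact_mod_cast Int.floor_le_floor (by linarith : s - α ≤ t - α)
  have hI : ∀ a b : ℝ, IntervalIntegrable (fun t : ℝ => (⌊t - α⌋ : ℝ)) volume a b :=
    fun a b => hm.intervalIntegrable
  rw [← intervalIntegral.integral_add_adjacent_intervals (hI 0 α) (hI α 1)]
  have e1 : ∫ t in (0 : ℝ)..α, (⌊t - α⌋ : ℝ) = ∫ _t in (0 : ℝ)..α, (-1 : ℝ) := by
    refine intervalIntegral.integral_congr_Ioo_of_le h0 ?_
    intro t ht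
    have : ⌊t - α⌋ = -1 := by
      rw [Int.floor_eq_iff]
      push_cast
      exact ⟨by linarith [ht.1], by linarith [ht.2]⟩
    show (⌊t - α⌋ : ℝ) = -1
    rw [this]
    norm_num
  have e2 : ∫ t in α..1, (⌊t - α⌋ : ℝ) = ∫ _t in α..1, (0 : ℝ) := by
    refine intervalIntegral.integral_congr_Ioo_of_le h1 ?_
    intro t ht
    have : ⌊t - α⌋ = 0 := by
      rw [Int.floor_eq_iff]
      push_cast
      exact ⟨by linarith [ht.1], by linarith [ht.2]⟩
    show (⌊t - α⌋ : ℝ) = 0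
    rw [this]
    norm_num
  rw [e1, e2]
  simp

theorem chi_bv {α β : ℝ} (h0 : 0 ≤ α) (h1 : α < β) (h2 : β ≤ 1) : IsBV (chi α β) := by
  have hl : ∀ a : ℝ, H44TX.IsLift fun t : ℝ => (⌊t - a⌋ : ℝ) := by
    intro a
    refine ⟨?_, ?_⟩
    · intro s t hst
      show (⌊s - a⌋ : ℝ) ≤ ⌊t - a⌋
      exact_mod_cast Int.floor_le_floor (by linarith : s - a ≤ t - a)
    · intro t
      have : ⌊t + 1 - a⌋ = ⌊t - a⌋ + 1 := by
        rw [← Int.floor_add_one]
        congr 1
        ring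
      show (⌊t + 1 - a⌋ : ℝ) = ⌊t - a⌋ + 1
      rw [this]
      push_cast
      rfl
  refine ⟨⟨_, _, hl α, hl β, β - α, chi_eq h0 h1.le h2⟩, ?_, ?_⟩
  · intro t
    unfold chi
    split_ifs <;> rw [abs_le] <;> constructor <;> linarith
  · have e : chi α β = fun t => ((⌊t - α⌋ : ℝ) - ⌊t - β⌋) - (β - α) := funext (chi_eq h0 h1.le h2)
    have i1 : ∀ a : ℝ, IntervalIntegrable (fun t : ℝ => (⌊t - a⌋ : ℝ)) volume 0 1 := fun a =>
      (hl a).mono.intervalIntegrable
    rw [e, intervalIntegral.integral_sub ((i1 α).sub (i1 β)) intervalIntegrable_const,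
      intervalIntegral.integral_sub (i1 α) (i1 β), int_floor h0 (h1.le.trans h2), int_floor (h0.trans h1.le) h2]
    rw [intervalIntegral.integral_const, sub_zero, one_smul]
    ring

theorem tr_bv {η : ℝ} (h0 : 0 < η) (h1 : η ≤ 1) (h y : ℝ) : IsBV (tr η h y) := by
  have hc := tr_cls h0 h1 h y
  obtain ⟨s₁, s₂, l1, l2, c, e⟩ := hc.lift
  refine ⟨⟨s₁, s₂, ⟨l1.1, l1.2⟩, ⟨l2.1, l2.2⟩, -c, fun t => ?_⟩, hc.bd, hc.mean⟩
  rw [e t]
  ring

/-! ### comparison -/

/-- integrating a pointwise bound -/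
theorem int_cmp {f g : ℝ → ℝ} (hf : IsBV f) (hg : IsBV g) {b : ℝ → ℝ} {C : ℝ}
    (hb : IntervalIntegrable b volume 0 1) (hbi : ∫ t in (0 : ℝ)..1, b t ≤ C)
    (h : ∀ t, |f t - g t| ≤ b t) : ∫ t in (0 : ℝ)..1, |f t - g t| ≤ C := by
  refine le_trans ?_ hbi
  refine intervalIntegral.integral_mono_on zero_le_one ?_ hb fun t _ => h t
  refine intInt_of_bdd (C := 2) ((hf.meas.sub hg.meas).abs) (fun x => ?_) 0 1
  rw [abs_abs]
  have e1 := hf.bdd x
  have e2 := hg.bdd x
  have e3 := abs_sub (f x) (g x)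
  show |f x - g x| ≤ 2
  linarith

theorem bv_int {f : ℝ → ℝ} (hf : IsBV f) (a : ℝ) : IntervalIntegrable (fun t => f (t + a)) volume 0 1 :=
  intInt_of_bdd (C := 1) (hf.meas.comp (measurable_id.add_const a)) (fun _ => hf.bdd _) 0 1

theorem bv_mean {f : ℝ → ℝ} (hf : IsBV f) (a : ℝ) : ∫ t in (0 : ℝ)..1, f (t + a) = 0 := by
  have h := hf.mean' a 0
  rw [zero_add] at h
  have e : (fun t => f (t + a)) = fun t => f (a + t) := by
    funext t
    rw [add_comm]
  rw [e]
  exact h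

/-- the defect of the trapezoid -/
theorem gap_le_chi {η : ℝ} (h0 : 0 < η) (t : ℝ) :
    0 ≤ (⌊t⌋ : ℝ) + 1 - tz η t ∧ (⌊t⌋ : ℝ) + 1 - tz η t ≤ chi 0 η t + η := by
  refine ⟨by linarith [(tz_bounds h0 t).2], ?_⟩
  unfold chi
  by_cases e : Int.fract t < η
  · rw [if_pos ⟨Int.fract_nonneg t, e⟩]
    linarith [(tz_bounds h0 t).1]
  · rw [if_neg (fun h => e h.2)]
    have : tz η t = ⌊t⌋ + 1 := by
      unfold tz
      rw [min_eq_left]
      rw [le_div_iff₀ h0]
      linarith [not_lt.mp e]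
    rw [this]
    linarith

/-- the difference of floors is an arc or minus an arc -/
theorem floor_arc {f y : ℝ} (f0 : 0 < f) (f1 : f < 1) :
    ∃ α β : ℝ, 0 ≤ α ∧ α < β ∧ β ≤ 1 ∧ ((∀ t : ℝ, (⌊t + y + f⌋ : ℝ) - ⌊t + y⌋ - f = chi α β t) ∨
      (∀ t : ℝ, (⌊t + y + f⌋ : ℝ) - ⌊t + y⌋ - f = -chi α β t)) := by
  have hy : (⌊y⌋ : ℝ) + Int.fract y = y := Int.floor_add_fract y
  have y0 := Int.fract_nonneg y
  have y1 := Int.fract_lt_one y
  rcases le_or_gt (f + Int.fract y) 1 with h | h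
  · refine ⟨1 - f - Int.fract y, 1 - Int.fract y, by linarith, by linarith, by linarith, Or.inl fun t => ?_⟩
    rw [chi_eq (by linarith) (by linarith) (by linarith)]
    have e1 : t + y + f = t - (1 - f - Int.fract y) + ((⌊y⌋ + 1 : ℤ) : ℝ) := by push_cast; linarith
    have e2 : t + y = t - (1 - Int.fract y) + ((⌊y⌋ + 1 : ℤ) : ℝ) := by push_cast; linarith
    rw [e1, Int.floor_add_intCast, e2, Int.floor_add_intCast]
    push_cast
    ring
  · refine ⟨1 - Int.fract y, 2 - f - Int.fract y, by linarith, by linarith, by linarith, Or.inr fun t => ?_⟩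
    rw [chi_eq (by linarith) (by linarith) (by linarith)]
    have e1 : t + y + f = t - (2 - f - Int.fract y) + ((⌊y⌋ + 2 : ℤ) : ℝ) := by push_cast; linarith
    have e2 : t + y = t - (1 - Int.fract y) + ((⌊y⌋ + 1 : ℤ) : ℝ) := by push_cast; linarith
    rw [e1, Int.floor_add_intCast, e2, Int.floor_add_intCast]
    push_cast
    ring

/-- the trapezoid is close to the difference of floors -/
theorem tr_floor {η : ℝ} (h0 : 0 < η) (h y t : ℝ) :
    |tr η h y t - ((⌊t + y + Int.fract h⌋ : ℝ) - ⌊t + y⌋ - Int.fract h)| ≤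
      chi 0 η (t + (y + h)) + chi 0 η (t + y) + 2 * η := by
  have hh : (⌊h⌋ : ℝ) + Int.fract h = h := Int.floor_add_fract h
  have e1 : (⌊t + y + h⌋ : ℝ) = ⌊t + y + Int.fract h⌋ + ⌊h⌋ := by
    have e : t + y + h = t + y + Int.fract h + ((⌊h⌋ : ℤ) : ℝ) := by linarith
    rw [e, Int.floor_add_intCast]
    push_cast
    ring
  obtain ⟨a1, a2⟩ := gap_le_chi h0 (t + y + h)
  obtain ⟨b1, b2⟩ := gap_le_chi h0 (t + y)
  have e2 : tr η h y t - ((⌊t + y + Int.fract h⌋ : ℝ) - ⌊t + y⌋ - Int.fract h) =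
      ((⌊t + y⌋ : ℝ) + 1 - tz η (t + y)) - ((⌊t + y + h⌋ : ℝ) + 1 - tz η (t + y + h)) := by
    unfold tr
    rw [e1]
    linarith
  rw [e2, ← add_assoc]
  rw [abs_le]
  constructor <;> linarith

/-- every trapezoid is close to plus or minus an arc -/
theorem tr_arc {η : ℝ} (h0 : 0 < η) (h1 : η ≤ 1) (h y : ℝ) :
    (∃ α β : ℝ, 0 ≤ α ∧ α < β ∧ β ≤ 1 ∧ ((∫ t in (0 : ℝ)..1, |tr η h y t - chi α β t|) ≤ 2 * η ∨
      (∫ t in (0 : ℝ)..1, |(-tr η h y t) - chi α β t|) ≤ 2 * η)) := by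
  have hη := chi_bv (le_refl (0 : ℝ)) h0 h1
  have hb : IntervalIntegrable (fun t => chi 0 η (t + (y + h)) + chi 0 η (t + y) + 2 * η) volume 0 1 :=
    ((bv_int hη (y + h)).add (bv_int hη y)).add intervalIntegrable_const
  have hbi : ∫ t in (0 : ℝ)..1, (chi 0 η (t + (y + h)) + chi 0 η (t + y) + 2 * η) ≤ 2 * η := by
    rw [intervalIntegral.integral_add ((bv_int hη (y + h)).add (bv_int hη y)) intervalIntegrable_const,
      intervalIntegral.integral_add (bv_int hη (y + h)) (bv_int hη y), bv_mean hη, bv_mean hη]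
    simp
  rcases (Int.fract_nonneg h).eq_or_lt with hf | hf
  · -- integral width
    refine ⟨0, η, le_refl _, h0, h1, Or.inl ?_⟩
    have hz : ∀ t, tr η h y t = 0 := by
      intro t
      have hh : (⌊h⌋ : ℝ) + Int.fract h = h := Int.floor_add_fract h
      rw [← hf, add_zero] at hh
      unfold tr
      have := tz_add_int η (t + y) ⌊h⌋
      rw [hh] at this
      rw [this]
      ring
    have hb' : IntervalIntegrable (fun t => chi 0 η (t + 0) + 2 * η) volume 0 1 :=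
      (bv_int hη 0).add intervalIntegrable_const
    refine int_cmp (tr_bv h0 h1 h y) hη hb' ?_ fun t => ?_
    · rw [intervalIntegral.integral_add (bv_int hη 0) intervalIntegrable_const, bv_mean hη]
      simp
    · rw [hz, zero_sub, abs_neg, add_zero]
      unfold chi
      split_ifs <;> rw [abs_le] <;> constructor <;> linarith
  · obtain ⟨α, β, a0, a1, a2, a3⟩ := floor_arc (y := y) hf (Int.fract_lt_one h)
    refine ⟨α, β, a0, a1, a2, ?_⟩
    rcases a3 with a3 | a3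
    · left
      refine int_cmp (tr_bv h0 h1 h y) (chi_bv a0 a1 a2) hb hbi fun t => ?_
      rw [← a3]
      exact tr_floor h0 h y t
    · right
      have hn : IsBV fun t => -tr η h y t := by
        have hc := tr_bv h0 h1 h y
        obtain ⟨s₁, s₂, l1, l2, c, e⟩ := hc.ex
        refine ⟨⟨s₂, s₁, l2, l1, -c, fun t => ?_⟩, fun t => ?_, ?_⟩
        · rw [e t]
          ring
        · rw [abs_neg]
          exact hc.bdd t
        · rw [intervalIntegral.integral_neg, hc.mean, neg_zero]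
      refine int_cmp hn (chi_bv a0 a1 a2) hb hbi fun t => ?_
      have e : -tr η h y t - chi α β t = -(tr η h y t - -chi α β t) := by ring
      rw [e, abs_neg, ← a3]
      exact tr_floor h0 h y t

theorem le_tz {η : ℝ} (h0 : 0 < η) (t : ℝ) : (⌊t + 1 - η⌋ : ℝ) ≤ tz η t := by
  unfold tz
  have ht : (⌊t⌋ : ℝ) + Int.fract t = t := Int.floor_add_fract t
  have hf0 := Int.fract_nonneg t
  rcases le_or_gt η (Int.fract t) with h | h
  · have h1 : (1 : ℝ) ≤ Int.fract t / η := by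
      rw [le_div_iff₀ h0]
      linarith
    rw [min_eq_left h1]
    have h2 : ⌊t + 1 - η⌋ < ⌊t⌋ + 2 := by
      rw [Int.floor_lt]
      push_cast
      have := Int.lt_floor_add_one t
      linarith
    have h3 : ⌊t + 1 - η⌋ ≤ ⌊t⌋ + 1 := by omega
    exact_mod_cast h3
  · have h2 : ⌊t + 1 - η⌋ < ⌊t⌋ + 1 := by
      rw [Int.floor_lt]
      push_cast
      linarith
    have h3 : ⌊t + 1 - η⌋ ≤ ⌊t⌋ := by omega
    have h4 : (⌊t + 1 - η⌋ : ℝ) ≤ ⌊t⌋ := by exact_mod_cast h3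
    have h5 : 0 ≤ min 1 (Int.fract t / η) := le_min zero_le_one (div_nonneg hf0 h0.le)
    linarith

/-- the trapezoid below an arc -/
theorem tr_below {η α β : ℝ} (h0 : 0 < η) (h1 : η ≤ 1) (ha : 0 ≤ α) (hab : α < β) (hb : β ≤ 1) :
    (∫ t in (0 : ℝ)..1, |tr η (β - α - η) (-β + η) t - chi α β t|) ≤ 3 * η ∧
    ∀ t, tr η (β - α - η) (-β + η) t ≤ chi α β t + η := by
  have hle : ∀ t, tr η (β - α - η) (-β + η) t ≤ chi α β t + η := by
    intro t
    rw [chi_eq ha hab.le hb]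
    unfold tr
    have e1 : t + (-β + η) + (β - α - η) = t - α := by ring
    rw [e1]
    have e2 := (tz_bounds h0 (t - α)).2
    have e3 := le_tz h0 (t + (-β + η) - 1)
    have e4 := tz_add_one η (t + (-β + η) - 1)
    rw [show t + (-β + η) - 1 + 1 - η = t - β by ring] at e3
    rw [show t + (-β + η) - 1 + 1 = t + (-β + η) by ring] at e4
    linarith
  refine ⟨?_, hle⟩
  have hT := tr_bv h0 h1 (β - α - η) (-β + η)
  have hC := chi_bv ha hab hb
  have iT : IntervalIntegrable (tr η (β - α - η) (-β + η)) volume 0 1 := by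
    have := bv_int hT 0
    simpa using this
  have iC : IntervalIntegrable (chi α β) volume 0 1 := by
    have := bv_int hC 0
    simpa using this
  have hb' : IntervalIntegrable (fun t => chi α β t - tr η (β - α - η) (-β + η) t + 2 * η) volume 0 1 :=
    (iC.sub iT).add intervalIntegrable_const
  refine int_cmp hT hC hb' ?_ fun t => ?_
  · rw [intervalIntegral.integral_add (iC.sub iT) intervalIntegrable_const,
      intervalIntegral.integral_sub iC iT, hC.mean, hT.mean]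
    simp
    linarith
  · have := hle t
    rw [abs_le]
    constructor <;> linarith

end Pool.Agent.Helper31.KD
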